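import Pool.Agent.RHO.Stmts4

set_option autoImplicit false

/-!
# MP_ca8ef3_an, stage 3, row HSL: the half-space lemma
-/

namespace Pool.Agent.RHO.H27d

open Finset

section

variable {ι : Type} [Fintype ι]

theorem ind_symmDiff (A B : Finset (Pt ι)) : ind (symmDiff A B) = ind A + ind B := by
  funext z
  rw [Pi.add_apply, ind, ind, ind]
  have h11 : (1 : ZMod 2) + 1 = 0 := by decide
  by_cases hA : z ∈ A <;> by_cases hB : z ∈ B <;>
    simp [Finset.mem_symmDiff, hA, hB, h11]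

theorem card_symmDiff_le (A B : Finset (Pt ι)) : (symmDiff A B).card ≤ A.card + B.card := by
  have h : symmDiff A B ⊆ A ∪ B := by
    intro z hz
    rw [Finset.mem_symmDiff] at hz
    rw [Finset.mem_union]
    rcases hz with h | h
    · exact Or.inl h.1
    · exact Or.inr h.1
  exact (Finset.card_le_card h).trans (Finset.card_union_le A B)

end

theorem hsl (hglu : GLUStmt) (hkil : KILStmt) : HSLStmt := by
  intro ι _ _ D N t τ Q hD hN ht hQ hF
  classical
  choose! F hF1 hF2 using hF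
  obtain ⟨F₁, h1, h2⟩ := hglu ι D N τ Q F hD hN (fun q hq => ⟨hF1 q hq, hF2 q hq⟩)
  have hRM : 0 < Fintype.card (RM ι 1) := Fintype.card_pos
  have hQ0 : 0 < Q.card := by
    by_contra h
    have h0 : Q.card = 0 := by omega
    rw [h0, mul_zero] at hQ
    omega
  have hF₁ : F₁.card ≤ 4 * N + 4 * t := by
    apply Nat.le_of_mul_le_mul_right _ hQ0
    calc F₁.card * Q.card ≤ 4 * N * Q.card + 4 * Fintype.card (RM ι 1) := h2
      _ ≤ 4 * N * Q.card + 4 * (t * Q.card) := by gcongr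
      _ = (4 * N + 4 * t) * Q.card := by ring
  let Λ : Submodule (ZMod 2) (Fn ι) :=
    Submodule.span (ZMod 2) {f | ∃ q ∈ Q, f = (q : Fn ι)}
  have hΛ : Λ ≤ RM ι 1 := by
    rw [Submodule.span_le]
    rintro f ⟨q, _, rfl⟩
    exact q.2
  have hvan : ∀ l ∈ Λ, Van ((τ + ind F₁) * l) D := by
    have h3 : Λ ≤ (Vs ι D).comap (LinearMap.mulLeft (ZMod 2) (τ + ind F₁)) := by
      rw [Submodule.span_le]
      rintro f ⟨q, hq, rfl⟩
      exact h1 q hq
    intro l hl
    exact h3 hl
  have hcard : Q.card ≤ Nat.card Λ := by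
    have h4 : Nat.card Q ≤ Nat.card Λ := by
      refine Nat.card_le_card_of_injective
        (fun q : Q => (⟨((q : RM ι 1) : Fn ι), Submodule.subset_span ⟨q, q.2, rfl⟩⟩ : Λ)) ?_
      intro a b hab
      apply Subtype.ext
      apply Subtype.ext
      exact congrArg (fun x : Λ => (x : Fn ι)) hab
    rwa [Nat.card_eq_fintype_card, Fintype.card_coe] at h4
  have hN' : Nat.card (RM ι 1) = Fintype.card (RM ι 1) := Nat.card_eq_fintype_card
  have hle : Nat.card (RM ι 1) ≤ t * Nat.card Λ := by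
    rw [hN']
    exact hQ.trans (Nat.mul_le_mul_left t hcard)
  obtain ⟨F₂, h5, h6⟩ := hkil ι D (τ + ind F₁) Λ hΛ hvan
    (hle.trans (Nat.mul_le_mul_right _ ht))
  have hΛ0 : 0 < Nat.card Λ := lt_of_lt_of_le hQ0 hcard
  have hF₂ : F₂.card ≤ t := Nat.le_of_mul_le_mul_right (h5.trans hle) hΛ0
  refine ⟨symmDiff F₁ F₂, ?_, ?_⟩
  · have := card_symmDiff_le F₁ F₂
    omega
  · rw [ind_symmDiff, ← add_assoc]
    exact h6

end Pool.Agent.RHO.H27d
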